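import Pool.Agent.H87.QP.Targets

/-!
# Row DIL: dilation, the multiples of `q`
-/

set_option autoImplicit false

namespace Pool.Agent.H97.QP

open Finset Pool.Agent.H18.MR Pool.Agent.H93.DE Pool.Agent.H6.N4D Pool.Agent.H93
  Pool.Agent.H93.ES Pool.Agent.H28.NW Pool.Agent.H87.QP

lemma sum_mult (q n N : ℕ) (hq : 0 < q) (F : ℕ → ℝ) :
    ∑ m ∈ Ioc n N, (if q ∣ m then F m else 0) = ∑ m ∈ Ioc (n / q) (N / q), F (q * m) := by
  rw [← sum_filter]
  symm
  refine sum_nbij (fun m => q * m) ?_ ?_ ?_ ?_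
  · intro m hm
    rw [mem_Ioc] at hm
    rw [mem_filter, mem_Ioc]
    have h1 := (Nat.div_lt_iff_lt_mul hq).1 hm.1
    have h2 := (Nat.le_div_iff_mul_le hq).1 hm.2
    refine ⟨⟨?_, ?_⟩, dvd_mul_right q m⟩
    · rw [mul_comm]
      exact h1
    · show q * m ≤ N
      rw [mul_comm]
      exact h2
  · intro a _ b _ hab
    exact Nat.eq_of_mul_eq_mul_left hq hab
  · intro m hm
    rw [mem_coe, mem_filter, mem_Ioc] at hm
    obtain ⟨⟨h1, h2⟩, k, rfl⟩ := hm
    refine ⟨k, ?_, rfl⟩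
    rw [mem_coe, mem_Ioc]
    refine ⟨(Nat.div_lt_iff_lt_mul hq).2 ?_, (Nat.le_div_iff_mul_le hq).2 ?_⟩
    · rw [mul_comm]
      exact h1
    · rw [mul_comm]
      exact h2
  · intro m _
    rfl

theorem pf_DIL : T_DIL := by
  intro lam q T n h hl hq hqT
  have hq0 : 0 < q := hq.pos
  have hT0 : 0 < T := hq0.trans_le hqT
  have hqR : (0 : ℝ) < q := by exact_mod_cast hq0
  have hTR : (0 : ℝ) < T := by exact_mod_cast hT0
  have habs : ∀ m, |lam m| ≤ 1 := fun m => by
    rcases hl.pm m with h1 | h1 <;> rw [h1] <;> norm_num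
  have hT' : 1 ≤ T / q := (Nat.one_le_div_iff hq0).2 hqT
  have hT'R : (0 : ℝ) < ((T / q : ℕ) : ℝ) := by exact_mod_cast hT'
  set g : ℕ → ℝ := fun m => lam m * lam (m + h) with hg
  have hg1 : ∀ m, |g m| ≤ 1 := fun m => by
    rw [hg]
    simp only
    rw [abs_mul]
    exact mul_le_one₀ (habs _) (abs_nonneg _) (habs _)
  -- the sum over the multiples
  have h1 : (T : ℝ) * (tq lam q T h n + rh lam T n (q * h)) =
      q * ∑ m ∈ Ioc (n / q) ((n + T) / q), g m := by
    have e1 : (T : ℝ) * (tq lam q T h n + rh lam T n (q * h)) =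
        ∑ m ∈ Ioc n (n + T), (if q ∣ m then (q : ℝ) * (lam m * lam (m + q * h)) else 0) := by
      unfold tq rh
      rw [← add_div, mul_div_cancel₀ _ hTR.ne', ← sum_add_distrib]
      refine sum_congr rfl fun m _ => ?_
      unfold EB.D
      split_ifs <;> ring
    rw [e1, sum_mult q n (n + T) hq0 (fun m => (q : ℝ) * (lam m * lam (m + q * h))), mul_sum]
    refine sum_congr rfl fun m hm => ?_
    rw [mem_Ioc] at hm
    have hm1 : 1 ≤ m := (Nat.zero_le _).trans_lt hm.1
    have e2 : q * m + q * h = q * (m + h) := by ring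
    rw [e2, hl.pr q m hq hm1, hl.pr q (m + h) hq (hm1.trans (Nat.le_add_right m h)), hg]
    ring
  -- the two ends
  have h2 : |∑ m ∈ Ioc (n / q) (n / q + T / q), g m| ≤
      |∑ m ∈ Ioc (n / q) ((n + T) / q), g m| + 1 := by
    have h3 : (n + T) / q = n / q + T / q ∨ (n + T) / q = n / q + T / q + 1 := by
      have h4 := Nat.add_div (a := n) (b := T) hq0
      rw [h4]
      split_ifs
      · right
        rfl
      · left
        rfl
    rcases h3 with h3 | h3
    · rw [h3]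
      linarith [abs_nonneg (∑ m ∈ Ioc (n / q) (n / q + T / q), g m)]
    · rw [h3, sum_Ioc_succ_top (by omega)]
      have h5 := abs_sub_abs_le_abs_sub (∑ m ∈ Ioc (n / q) (n / q + T / q), g m)
        (∑ m ∈ Ioc (n / q) (n / q + T / q), g m + g (n / q + T / q + 1))
      have h6 : ∑ m ∈ Ioc (n / q) (n / q + T / q), g m -
          (∑ m ∈ Ioc (n / q) (n / q + T / q), g m + g (n / q + T / q + 1)) =
          - g (n / q + T / q + 1) := by ring
      rw [h6, abs_neg] at h5
      linarith [hg1 (n / q + T / q + 1)]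
  have h3 : ((T / q : ℕ) : ℝ) * |rh lam (T / q) (n / q) h| =
      |∑ m ∈ Ioc (n / q) (n / q + T / q), g m| := by
    unfold rh
    rw [abs_div, Nat.abs_cast, mul_div_cancel₀ _ hT'R.ne']
  have h4 : (q : ℝ) * |∑ m ∈ Ioc (n / q) ((n + T) / q), g m| ≤
      T * (|tq lam q T h n| + |rh lam T n (q * h)|) := by
    have e : (q : ℝ) * |∑ m ∈ Ioc (n / q) ((n + T) / q), g m| =
        |(q : ℝ) * ∑ m ∈ Ioc (n / q) ((n + T) / q), g m| := by
      rw [abs_mul, Nat.abs_cast]
    rw [e, ← h1, abs_mul, Nat.abs_cast]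
    exact mul_le_mul_of_nonneg_left (abs_add_le _ _) hTR.le
  have h5 : (T : ℝ) ≤ q * ((T / q : ℕ) : ℝ) + q := by
    have h6 : T ≤ q * (T / q) + q := by
      have h7 := Nat.div_add_mod T q
      have h8 := Nat.mod_lt T hq0
      omega
    exact_mod_cast h6
  have h6 : |rh lam (T / q) (n / q) h| ≤ 1 := abs_rh_le habs _ _ _
  have h7 : (T : ℝ) * |rh lam (T / q) (n / q) h| ≤
      T * (|tq lam q T h n| + |rh lam T n (q * h)|) + 2 * q := by
    have h8 : (T : ℝ) * |rh lam (T / q) (n / q) h| ≤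
        (q * ((T / q : ℕ) : ℝ) + q) * |rh lam (T / q) (n / q) h| :=
      mul_le_mul_of_nonneg_right h5 (abs_nonneg _)
    have h9 : (q * ((T / q : ℕ) : ℝ) + q) * |rh lam (T / q) (n / q) h| =
        q * (((T / q : ℕ) : ℝ) * |rh lam (T / q) (n / q) h|) +
          q * |rh lam (T / q) (n / q) h| := by ring
    have h10 : (q : ℝ) * |rh lam (T / q) (n / q) h| ≤ q * 1 :=
      mul_le_mul_of_nonneg_left h6 hqR.le
    have h11 := mul_le_mul_of_nonneg_left h2 hqR.le
    rw [h9, h3] at h8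
    linarith
  have h8 : |rh lam (T / q) (n / q) h| ≤
      (T * (|tq lam q T h n| + |rh lam T n (q * h)|) + 2 * q) / T := by
    rw [le_div_iff₀ hTR]
    linarith
  have h9 : (T * (|tq lam q T h n| + |rh lam T n (q * h)|) + 2 * q) / (T : ℝ) =
      |tq lam q T h n| + |rh lam T n (q * h)| + 2 * q / T := by
    field_simp
  rw [h9] at h8
  have h10 : 2 * (q : ℝ) / T ≤ 4 * q / T := by
    apply div_le_div_of_nonneg_right _ hTR.le
    linarith
  linarith

end Pool.Agent.H97.QP
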